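import Pool.Agent.R892.GC.Grow

/-!
# The recursion `a (n) = |a (n - 1) - gcd (a (n - 1), n ^ p - 1)|`: size of the zeros and primality
-/

set_option autoImplicit false

namespace Pool.Agent.Results.MP_e7655a_nt.ZeroGrowth

/-- `z < z'` are consecutive zeros of `a` (with `z ≥ 1`). -/
def Consecutive (a : ℕ → ℕ) (z z' : ℕ) : Prop :=
  1 ≤ z ∧ z < z' ∧ a z = 0 ∧ a z' = 0 ∧ ∀ n, z < n → n < z' → a n ≠ 0

/-- `q_p (n) = ((n + 1) ^ p - 1) / n`. -/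
def q (p n : ℕ) : ℕ := ((n + 1) ^ p - 1) / n

/-- Let `p` be a prime, `a 1 = 1` and `a n = |a (n - 1) - gcd (a (n - 1), n ^ p - 1)|`. Then

* if `z < z'` are consecutive zeros then every prime factor `r` of `z' q_p (z')`
  satisfies `7 z' ≤ 4 (z + 1) ^ p + 7 z + 1 + 3 r`;
* if `p = 2` and `7 z' > 4 z ^ 2 + 18 z + 11` then `z'` and `z' + 2 = q_2 (z')` are prime;
* if for some `θ > 4 / 7` all but finitely many pairs of consecutive zeros satisfy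
  `z' ≥ θ z ^ p`, then every large zero `n` is prime and `q_p (n)` has at most `p - 1` prime
  factors counted with multiplicity; for `p = 2` both `n` and `q_2 (n) = n + 2` are prime. -/
theorem result (p : ℕ) (hp : p.Prime) (a : ℕ → ℕ) (h1 : a 1 = 1)
    (h : ∀ n : ℕ, 2 ≤ n →
        a n = Int.natAbs ((a (n - 1) : ℤ) - ((Nat.gcd (a (n - 1)) (n ^ p - 1) : ℕ) : ℤ))) :
    (∀ z z', Consecutive a z z' → ∀ r : ℕ, r.Prime → r ∣ z' * q p z' →
        7 * z' ≤ 4 * (z + 1) ^ p + 7 * z + 1 + 3 * r) ∧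
    (p = 2 → ∀ z z', Consecutive a z z' → 4 * z ^ 2 + 18 * z + 11 < 7 * z' →
      z'.Prime ∧ (z' + 2).Prime) ∧
    ((∃ θ : ℝ, 4 / 7 < θ ∧ ∃ N : ℕ, ∀ z z', N ≤ z → Consecutive a z z' → θ * (z : ℝ) ^ p ≤ z') →
      ∃ N : ℕ, ∀ n : ℕ, N ≤ n → a n = 0 →
        n.Prime ∧ (q p n).primeFactorsList.length ≤ p - 1 ∧ (p = 2 → (n + 2).Prime)) := by
  have hp2 := hp.two_le
  have hrec : ∀ n, 1 ≤ n → a (n + 1) = Int.natAbs ((a n : ℤ) -
      ((Nat.gcd (a n) ((n + 1) ^ p - 1) : ℕ) : ℤ)) := by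
    intro n hn
    have := h (n + 1) (by omega)
    rwa [Nat.add_sub_cancel] at this
  refine ⟨fun z z' hc r hr hrz => ?_, fun h2 z z' hc hbig => ?_, ?_⟩
  · refine (R892.GC.main_B p hp2 a hrec z z' hc.1 hc.2.2.1 hc.2.1 hc.2.2.2.1 hc.2.2.2.2).2 r hr ?_
    rw [← R892.GC.q_mul p z']
    exact hrz
  · subst h2
    exact R892.GC.two_B a hrec z z' hc.1 hc.2.2.1 hc.2.1 hc.2.2.2.1 hc.2.2.2.2 hbig
  · rintro ⟨θ, hθ, N, hN⟩
    obtain ⟨K, N', hK, hN'⟩ := R892.GC.pow_large θ hθ p hp2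
    obtain ⟨N'', hN''⟩ := R892.GC.quad_large θ hθ 18 11
    obtain ⟨z0, hz0, hz0'⟩ := R892.GC.zeros_B p a hrec (N + N' + N'' + 1)
    refine ⟨z0 + 1, fun n hn hn0 => ?_⟩
    obtain ⟨z, k1, k2, k3, k4⟩ := R892.GC.prev_zero a z0 n hz0' (by omega)
    have hc : Consecutive a z n := ⟨by omega, k2, k3, hn0, k4⟩
    obtain ⟨l1, l2, l3⟩ := hN' z n (by omega) (hN z n (by omega) hc)
    obtain ⟨_, m2, m3⟩ := R892.GC.prime_B p hp2 a hrec z n K hc.1 hK k3 k2 hn0 k4 l1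
    refine ⟨m2 l2, ?_, fun h2 => ?_⟩
    · have := m3 l3
      show (((n + 1) ^ p - 1) / n).primeFactorsList.length ≤ p - 1
      omega
    · subst h2
      exact (R892.GC.two_B a hrec z n hc.1 k3 k2 hn0 k4
        (hN'' z n (by omega) (hN z n (by omega) hc))).2

end Pool.Agent.Results.MP_e7655a_nt.ZeroGrowth
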